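import Pool.Agent.Lib_helper33.HOM.Defs
import Pool.Agent.Lib_helper33.HOMF.MA
import Pool.Agent.Lib_helper33.HOMF.SF

/-!
# Densities in residue classes with respect to an invariant mean
-/

set_option autoImplicit false

namespace Pool.Agent.HOM

open scoped BigOperators

/-- the class of `r` modulo `W` -/
def cls (W : ℕ) (r : ℤ) : Set ℤ := {n | (W : ℤ) ∣ n - r}

/-- the density of `f` in the class of `r` modulo `W` -/
noncomputable def den (m : Mn ℤ) (f : ℤ → ℝ) (W : ℕ) (r : ℤ) : ℝ :=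
  W * m.L ((cls W r).indicator f)

theorem mem_cls (W : ℕ) (r n : ℤ) : n ∈ cls W r ↔ (W : ℤ) ∣ n - r := Iff.rfl

theorem cls_eq {W : ℕ} {r s : ℤ} (h : (W : ℤ) ∣ r - s) : cls W r = cls W s := by
  ext n
  rw [mem_cls, mem_cls]
  have e : n - s = (n - r) + (r - s) := by ring
  rw [e]
  exact (Int.dvd_add_left h).symm

theorem bd_ind {f : ℤ → ℝ} (hf : Bd f) (S : Set ℤ) : Bd (S.indicator f) := by
  classical
  obtain ⟨B, hB⟩ := hf
  refine ⟨B, fun x => ?_⟩
  by_cases hx : x ∈ S
  · rw [Set.indicator_of_mem hx]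
    exact hB x
  · rw [Set.indicator_of_notMem hx, norm_zero]
    exact (norm_nonneg _).trans (hB x)

/-- the sum over the classes modulo `M₁ * K` in a class modulo `M₁` -/
theorem cls_split (M₁ K : ℕ) (h1 : 0 < M₁) (hK : 0 < K) (r : ℤ) (f : ℤ → ℝ) :
    (cls M₁ r).indicator f =
      ∑ i ∈ Finset.range K, (cls (M₁ * K) (r + M₁ * i)).indicator f := by
  classical
  funext x
  rw [Finset.sum_apply]
  have hM : (0 : ℤ) < M₁ := by exact_mod_cast h1
  have hKZ : (0 : ℤ) < K := by exact_mod_cast hK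
  by_cases hx : x ∈ cls M₁ r
  · rw [Set.indicator_of_mem hx]
    obtain ⟨y, hy⟩ := (mem_cls _ _ _).1 hx
    have hi0 : 0 ≤ y % (K : ℤ) := Int.emod_nonneg _ hKZ.ne'
    have hi1 : y % (K : ℤ) < K := Int.emod_lt_of_pos _ hKZ
    obtain ⟨i, hi⟩ : ∃ i : ℕ, (i : ℤ) = y % (K : ℤ) := ⟨(y % (K : ℤ)).toNat, Int.toNat_of_nonneg hi0⟩
    have hiK : i < K := by
      have : (i : ℤ) < K := by rw [hi]; exact hi1
      exact_mod_cast this
    have hmem : x ∈ cls (M₁ * K) (r + M₁ * i) := by
      rw [mem_cls]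
      refine ⟨y / (K : ℤ), ?_⟩
      have h2 := Int.emod_add_mul_ediv y (K : ℤ)
      rw [← hi] at h2
      have e : x - (r + M₁ * i) = M₁ * (y - i) := by
        have : x = r + M₁ * y := by linarith
        rw [this]
        ring
      rw [e]
      push_cast
      have : y - i = K * (y / (K : ℤ)) := by linarith
      rw [this]
      ring
    rw [Finset.sum_eq_single i]
    · rw [Set.indicator_of_mem hmem]
    · intro j hj hji
      rw [Set.indicator_of_notMem]
      intro hmem'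
      rw [mem_cls] at hmem hmem'
      have h2 : ((M₁ * K : ℕ) : ℤ) ∣ (M₁ : ℤ) * ((i : ℤ) - j) := by
        have h3 := Int.dvd_sub hmem' hmem
        have e : x - (r + (M₁ : ℤ) * j) - (x - (r + (M₁ : ℤ) * i)) = (M₁ : ℤ) * ((i : ℤ) - j) := by
          ring
        rwa [e] at h3
      push_cast at h2
      have h3 : (K : ℤ) ∣ (i : ℤ) - j := (mul_dvd_mul_iff_left hM.ne').1 h2
      have hjK : j < K := Finset.mem_range.1 hj
      obtain ⟨q, hq⟩ := h3
      have hq1 : q < 1 := by
        by_contra hq1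
        push Not at hq1
        have : (K : ℤ) * 1 ≤ K * q := mul_le_mul_of_nonneg_left hq1 hKZ.le
        omega
      have hq2 : -1 < q := by
        by_contra hq2
        push Not at hq2
        have : (K : ℤ) * q ≤ K * (-1) := mul_le_mul_of_nonneg_left hq2 hKZ.le
        omega
      have hq3 : q = 0 := by omega
      rw [hq3, mul_zero] at hq
      exact hji (by omega)
    · intro h
      exact absurd (Finset.mem_range.2 hiK) h
  · rw [Set.indicator_of_notMem hx]
    symm
    refine Finset.sum_eq_zero fun i _ => ?_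
    rw [Set.indicator_of_notMem]
    intro h2
    apply hx
    rw [mem_cls] at h2 ⊢
    have h3 : (M₁ : ℤ) ∣ x - (r + M₁ * i) := by
      refine dvd_trans ?_ h2
      push_cast
      exact dvd_mul_right _ _
    have e : x - r = (x - (r + M₁ * i)) + M₁ * i := by ring
    rw [e]
    exact dvd_add h3 (dvd_mul_right _ _)

theorem den_split (m : Mn ℤ) (M₁ K : ℕ) (h1 : 0 < M₁) (hK : 0 < K) (r : ℤ) (f : ℤ → ℝ) :
    (K : ℝ) * den m f M₁ r = ∑ i ∈ Finset.range K, den m f (M₁ * K) (r + M₁ * i) := by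
  unfold den
  rw [cls_split M₁ K h1 hK r f, map_sum, ← Finset.mul_sum]
  push_cast
  ring

theorem den_ref (m : Mn ℤ) (_hm : m.Inv) (f : ℤ → ℝ) (_hf : ∀ x, 0 ≤ f x ∧ f x ≤ 1) (M₁ M₂ : ℕ)
    (h1 : 0 < M₁) (h2 : 0 < M₂) (h : M₁ ∣ M₂) (w : ℤ) : ∃ w' : ℤ, (M₁ : ℤ) ∣ w' - w ∧ den m f M₁ w ≤ den m f M₂ w' := by
  classical
  obtain ⟨K, rfl⟩ := h
  have hK : 0 < K := Nat.pos_of_mul_pos_left h2 |> fun h => by
    rcases Nat.eq_zero_or_pos K with h3 | h3
    · subst h3
      simp at h2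
    · exact h3
  have h3 := den_split m M₁ K h1 hK w f
  obtain ⟨i, -, hi⟩ := Finset.exists_le_of_sum_le (s := Finset.range K)
    (f := fun _ : ℕ => den m f M₁ w) (g := fun i : ℕ => den m f (M₁ * K) (w + M₁ * i))
    ⟨0, Finset.mem_range.2 hK⟩ (by
      rw [Finset.sum_const, Finset.card_range, nsmul_eq_mul, h3])
  refine ⟨w + M₁ * i, ?_, hi⟩
  rw [add_sub_cancel_left]
  exact dvd_mul_right _ _

theorem den_avg (m : Mn ℤ) (_hm : m.Inv) (f : ℤ → ℝ) (_hf : ∀ x, 0 ≤ f x ∧ f x ≤ 1) (M : ℕ)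
    (hM : 0 < M) (h3 : 3 ∣ M) :
    ∃ u0 w : ℤ, u0 % 3 = 1 ∧ w % 3 = 0 ∧
      den m f 3 0 + 2 * den m f 3 1 ≤ den m f M u0 + den m f M (u0 - w) + den m f M w := by
  classical
  obtain ⟨K, rfl⟩ := h3
  have hK : 0 < K := by omega
  have a1 : (K : ℝ) * den m f 3 1 = ∑ i ∈ Finset.range K, den m f (3 * K) (1 + 3 * i) := by
    have := den_split m 3 K (by norm_num) hK 1 f
    exact_mod_cast this
  have a0 : (K : ℝ) * den m f 3 0 = ∑ i ∈ Finset.range K, den m f (3 * K) (3 * i) := by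
    have := den_split m 3 K (by norm_num) hK 0 f
    simp only [zero_add] at this
    exact_mod_cast this
  have a2 : ∀ j : ℕ, (K : ℝ) * den m f 3 1 =
      ∑ i ∈ Finset.range K, den m f (3 * K) (1 + 3 * i - 3 * j) := by
    intro j
    have h4 := den_split m 3 K (by norm_num) hK (1 - 3 * j) f
    have h5 : den m f 3 (1 - 3 * (j : ℤ)) = den m f 3 1 := by
      unfold den
      rw [cls_eq (W := 3) (r := 1 - 3 * (j : ℤ)) (s := 1)]
      push_cast
      exact ⟨-j, by ring⟩
    rw [h5] at h4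
    rw [h4]
    refine Finset.sum_congr rfl fun i _ => ?_
    congr 1
    push_cast
    ring
  have hsum : ∑ _p ∈ Finset.range K ×ˢ Finset.range K, (den m f 3 0 + 2 * den m f 3 1) ≤
      ∑ p ∈ Finset.range K ×ˢ Finset.range K, (den m f (3 * K) (1 + 3 * (p.1 : ℤ)) +
        den m f (3 * K) (1 + 3 * (p.1 : ℤ) - 3 * (p.2 : ℤ)) + den m f (3 * K) (3 * (p.2 : ℤ))) := by
    have e1 : ∑ p ∈ Finset.range K ×ˢ Finset.range K, den m f (3 * K) (1 + 3 * (p.1 : ℤ)) =
        K * (K * den m f 3 1) := by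
      rw [Finset.sum_product, a1, Finset.mul_sum]
      refine Finset.sum_congr rfl fun i _ => ?_
      show ∑ _y ∈ Finset.range K, den m f (3 * K) (1 + 3 * (i : ℤ)) = _
      rw [Finset.sum_const, Finset.card_range, nsmul_eq_mul]
    have e2 : ∑ p ∈ Finset.range K ×ˢ Finset.range K,
        den m f (3 * K) (1 + 3 * (p.1 : ℤ) - 3 * (p.2 : ℤ)) = K * (K * den m f 3 1) := by
      rw [Finset.sum_product_right, Finset.sum_congr rfl (fun j _ => (a2 j).symm), Finset.sum_const,
        Finset.card_range, nsmul_eq_mul]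
    have e3 : ∑ p ∈ Finset.range K ×ˢ Finset.range K, den m f (3 * K) (3 * (p.2 : ℤ)) =
        K * (K * den m f 3 0) := by
      rw [Finset.sum_product, Finset.sum_congr rfl (fun _ _ => a0.symm), Finset.sum_const,
        Finset.card_range, nsmul_eq_mul]
    have e4 : ∑ p ∈ Finset.range K ×ˢ Finset.range K, (den m f (3 * K) (1 + 3 * (p.1 : ℤ)) +
        den m f (3 * K) (1 + 3 * (p.1 : ℤ) - 3 * (p.2 : ℤ)) + den m f (3 * K) (3 * (p.2 : ℤ))) =
        K * (K * den m f 3 1) + K * (K * den m f 3 1) + K * (K * den m f 3 0) := by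
      rw [Finset.sum_add_distrib, Finset.sum_add_distrib, e1, e2, e3]
    rw [e4, Finset.sum_const, Finset.card_product, Finset.card_range, nsmul_eq_mul]
    refine le_of_eq ?_
    push_cast
    ring
  obtain ⟨⟨i, j⟩, -, hij⟩ := Finset.exists_le_of_sum_le
    (s := Finset.range K ×ˢ Finset.range K) ⟨(0, 0), by
      rw [Finset.mem_product]
      exact ⟨Finset.mem_range.2 hK, Finset.mem_range.2 hK⟩⟩ hsum
  refine ⟨1 + 3 * i, 3 * j, by omega, by omega, hij⟩

/-- the mean of a class -/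
theorem den_one (m : Mn ℤ) (hm : m.Inv) (W : ℕ) (hW : 0 < W) (r : ℤ) :
    (W : ℝ) * m.L ((cls W r).indicator 1) = 1 := by
  classical
  have h1 : Bd (1 : ℤ → ℝ) := Bd.const (1 : ℝ)
  have h2 := cls_split 1 W one_pos hW r (1 : ℤ → ℝ)
  have h3 : (cls 1 r).indicator (1 : ℤ → ℝ) = fun _ => (1 : ℝ) := by
    funext x
    rw [Set.indicator_of_mem]
    · rfl
    · rw [mem_cls]
      push_cast
      exact one_dvd _
  have h4 : m.L ((cls 1 r).indicator (1 : ℤ → ℝ)) = 1 := by
    rw [h3]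
    exact m.one
  rw [h2, map_sum] at h4
  have h5 : ∀ i ∈ Finset.range W, m.L ((cls (1 * W) (r + ((1 : ℕ) : ℤ) * i)).indicator 1) =
      m.L ((cls W r).indicator 1) := by
    intro i _
    have h6 := L_shift m hm (bd_ind h1 (cls W r)) (-(i : ℤ))
    rw [← h6]
    congr 1
    funext x
    have h7 : x ∈ cls (1 * W) (r + ((1 : ℕ) : ℤ) * i) ↔ x + -(i : ℤ) ∈ cls W r := by
      rw [mem_cls, mem_cls, one_mul]
      push_cast
      rw [one_mul]
      have e : x - (r + i) = x + -(i : ℤ) - r := by ring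
      rw [e]
    by_cases hx : x ∈ cls (1 * W) (r + ((1 : ℕ) : ℤ) * i)
    · rw [Set.indicator_of_mem hx, Set.indicator_of_mem (h7.1 hx)]
      rfl
    · rw [Set.indicator_of_notMem hx, Set.indicator_of_notMem (fun h => hx (h7.2 h))]
  rw [Finset.sum_congr rfl h5, Finset.sum_const, Finset.card_range, nsmul_eq_mul] at h4
  exact h4

theorem lev (m : Mn ℤ) (hm : m.Inv) (W : ℕ) (hW : 0 < W) (r : ℤ) (g : ℤ → ℝ) (B : ℝ) (hB : 0 < B)
    (hg : ∀ x, 0 ≤ g x ∧ g x ≤ B) (A η : ℝ) (hA : η ≤ A)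
    (h : A ≤ W * m.L ((cls W r).indicator g)) :
    η / (B * W) ≤ m.L ({x | x ∈ cls W r ∧ A - η ≤ g x}.indicator 1) := by
  classical
  have hWR : (0 : ℝ) < W := by exact_mod_cast hW
  have h1 : Bd (1 : ℤ → ℝ) := Bd.const (1 : ℝ)
  have hgB : Bd g := Bd.of_mem_Icc hg
  set S : Set ℤ := {x | x ∈ cls W r ∧ A - η ≤ g x} with hS
  have h2 : m.L ((cls W r).indicator g) ≤
      m.L (B • S.indicator 1 + (A - η) • (cls W r).indicator 1) := by
    refine L_mono m (bd_ind hgB _) ?_ fun x => ?_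
    · have e1 : Bd (fun x => B * S.indicator 1 x) := (Bd.const B).mulR (bd_ind h1 S)
      have e2 : Bd (fun x => (A - η) * (cls W r).indicator 1 x) :=
        (Bd.const (A - η)).mulR (bd_ind h1 (cls W r))
      exact e1.add e2
    · simp only [Pi.add_apply, Pi.smul_apply, smul_eq_mul]
      by_cases hx : x ∈ cls W r
      · rw [Set.indicator_of_mem hx, Set.indicator_of_mem hx]
        by_cases hxg : A - η ≤ g x
        · rw [Set.indicator_of_mem (show x ∈ S from ⟨hx, hxg⟩)]
          simp only [Pi.one_apply]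
          have := (hg x).2
          linarith
        · rw [Set.indicator_of_notMem (show x ∉ S from fun h => hxg h.2)]
          simp only [Pi.one_apply]
          push Not at hxg
          linarith
      · rw [Set.indicator_of_notMem hx, Set.indicator_of_notMem hx,
          Set.indicator_of_notMem (show x ∉ S from fun h => hx h.1)]
        simp
  rw [map_add, map_smul, map_smul, smul_eq_mul, smul_eq_mul] at h2
  have h3 := den_one m hm W hW r
  have h4 : W * m.L ((cls W r).indicator g) ≤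
      W * (B * m.L (S.indicator 1) + (A - η) * m.L ((cls W r).indicator 1)) :=
    mul_le_mul_of_nonneg_left h2 hWR.le
  have h5 : W * (B * m.L (S.indicator 1) + (A - η) * m.L ((cls W r).indicator 1)) =
      B * W * m.L (S.indicator 1) + (A - η) := by
    have : W * (B * m.L (S.indicator 1) + (A - η) * m.L ((cls W r).indicator 1)) =
      B * W * m.L (S.indicator 1) + (A - η) * (W * m.L ((cls W r).indicator 1)) := by ring
    rw [this, h3, mul_one]
  rw [div_le_iff₀ (by positivity)]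
  linarith

theorem den_dn (m : Mn ℤ) (hm : m.Inv) (f : ℤ → ℝ) (hf : ∀ x, 0 ≤ f x ∧ f x ≤ 1) (W M N : ℕ)
    (_hW : 0 < W) (hM : W ∣ M) (hN : 0 < N) (r k : ℤ) :
    W * m.L ((cls W r).indicator fun x => dn M N f (x + k)) = den m f W (r + k) := by
  classical
  have hfB : Bd f := Bd.of_mem_Icc hf
  have hNR : (0 : ℝ) < N := by exact_mod_cast hN
  have h1 : ((cls W r).indicator fun x => dn M N f (x + k)) =
      (N : ℝ)⁻¹ • ∑ s ∈ Finset.range N,
        fun x : ℤ => (cls W (r + k)).indicator f (x + (k + (M : ℤ) * s)) := by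
    funext x
    simp only [Pi.smul_apply, Finset.sum_apply, smul_eq_mul]
    have h2 : ∀ s : ℕ, x + (k + (M : ℤ) * s) ∈ cls W (r + k) ↔ x ∈ cls W r := by
      intro s
      rw [mem_cls, mem_cls]
      have e : x + (k + (M : ℤ) * s) - (r + k) = (x - r) + (M : ℤ) * s := by ring
      rw [e]
      have hd : (W : ℤ) ∣ (M : ℤ) * s := (Int.natCast_dvd_natCast.2 hM).mul_right _
      exact Int.dvd_add_left hd
    by_cases hx : x ∈ cls W r
    · rw [Set.indicator_of_mem hx]
      unfold dn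
      congr 1
      refine Finset.sum_congr rfl fun s _ => ?_
      rw [Set.indicator_of_mem ((h2 s).2 hx)]
      congr 1
      ring
    · rw [Set.indicator_of_notMem hx, Finset.sum_eq_zero, mul_zero]
      intro s _
      rw [Set.indicator_of_notMem (fun h => hx ((h2 s).1 h))]
  rw [h1, map_smul, map_sum, smul_eq_mul]
  have h3 : ∀ s ∈ Finset.range N,
      m.L (fun x : ℤ => (cls W (r + k)).indicator f (x + (k + (M : ℤ) * s))) =
        m.L ((cls W (r + k)).indicator f) := fun s _ =>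
    L_shift m hm (bd_ind hfB (cls W (r + k))) _
  rw [Finset.sum_congr rfl h3, Finset.sum_const, Finset.card_range, nsmul_eq_mul,
    inv_mul_cancel_left₀ hNR.ne']
  rfl

theorem den_congr (m : Mn ℤ) (f : ℤ → ℝ) (W : ℕ) (r r' : ℤ) (h : (W : ℤ) ∣ r - r') :
    den m f W r = den m f W r' := by
  unfold den
  rw [cls_eq h]

theorem den_eq (m : Mn ℤ) (f g : ℤ → ℝ) (W : ℕ) (r : ℤ) (h : ∀ n ∈ cls W r, f n = g n) :
    den m f W r = den m g W r := by
  classical
  unfold den
  congr 2
  funext x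
  by_cases hx : x ∈ cls W r
  · rw [Set.indicator_of_mem hx, Set.indicator_of_mem hx, h x hx]
  · rw [Set.indicator_of_notMem hx, Set.indicator_of_notMem hx]

theorem den_le (m : Mn ℤ) (hm : m.Inv) (f : ℤ → ℝ) (hf : ∀ x, 0 ≤ f x ∧ f x ≤ 1) (W N : ℕ)
    (hW : 0 < W) (hN : 0 < N) (c : ℝ) (hc : ∀ x, dn W N f x ≤ c) (r : ℤ) : den m f W r ≤ c := by
  classical
  have hWR : (0 : ℝ) < W := by exact_mod_cast hW
  have h1 := den_dn m hm f hf W W N hW dvd_rfl hN r 0
  rw [add_zero] at h1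
  rw [← h1]
  have hb1 : Bd (1 : ℤ → ℝ) := Bd.const (1 : ℝ)
  have hdn : Bd fun x : ℤ => dn W N f (x + 0) :=
    Bd.of_mem_Icc (a := 0) (b := 1) fun x => dn_rng W N hN hf _
  have h2 : m.L ((cls W r).indicator fun x => dn W N f (x + 0)) ≤
      m.L (c • (cls W r).indicator 1) := by
    refine L_mono m (bd_ind hdn _) ?_ fun x => ?_
    · have e1 : Bd (fun x => c * (cls W r).indicator 1 x) :=
        (Bd.const c).mulR (bd_ind hb1 (cls W r))
      exact e1
    · simp only [Pi.smul_apply, smul_eq_mul]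
      by_cases hx : x ∈ cls W r
      · rw [Set.indicator_of_mem hx, Set.indicator_of_mem hx]
        simp only [Pi.one_apply, mul_one]
        exact hc _
      · rw [Set.indicator_of_notMem hx, Set.indicator_of_notMem hx, mul_zero]
  rw [map_smul, smul_eq_mul] at h2
  have h3 := den_one m hm W hW r
  calc (W : ℝ) * m.L ((cls W r).indicator fun x => dn W N f (x + 0))
      ≤ W * (c * m.L ((cls W r).indicator 1)) := mul_le_mul_of_nonneg_left h2 hWR.le
    _ = c * (W * m.L ((cls W r).indicator 1)) := by ring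
    _ = c := by rw [h3, mul_one]

end Pool.Agent.HOM
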