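import Pool.Agent.Lib_helper23.FP.Den

/-!
# Monotonicity of the vanishing of `T3`, and the reflection
-/

set_option autoImplicit false

namespace Pool.Agent.HOM

open scoped BigOperators

theorem tr_rng_L (m : Mn ℤ) (g : ℤ → ℝ) (B : ℝ) (h : ∀ x, 0 ≤ g x ∧ g x ≤ B) :
    0 ≤ m.L g ∧ m.L g ≤ B := by
  have hg : Bd g := Bd.of_mem_Icc h
  exact ⟨m.nonneg g hg fun x => (h x).1, L_le m B hg fun x => (h x).2⟩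

theorem tr_mul3 {a b c a' b' c' : ℝ} (ha : 0 ≤ a) (hb : 0 ≤ b) (hc : 0 ≤ c) (haa : a ≤ a')
    (hbb : b ≤ b') (hcc : c ≤ c') : a * b * c ≤ a' * b' * c' :=
  mul_le_mul (mul_le_mul haa hbb hb (ha.trans haa)) hcc hc
    (mul_nonneg (ha.trans haa) (hb.trans hbb))

theorem T3_zero (m : Mn ℤ) (f₁ f₂ f₃ g₁ g₂ g₃ : ℤ → ℝ)
    (h₁ : ∀ x, 0 ≤ f₁ x ∧ f₁ x ≤ g₁ x ∧ g₁ x ≤ 1) (h₂ : ∀ x, 0 ≤ f₂ x ∧ f₂ x ≤ g₂ x ∧ g₂ x ≤ 1)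
    (h₃ : ∀ x, 0 ≤ f₃ x ∧ f₃ x ≤ g₃ x ∧ g₃ x ≤ 1)
    (h : T3 m m m 0 0 1 1 g₃ g₂ g₂ g₁ g₁ g₁ = 0) : T3 m m m 0 0 1 1 f₃ f₂ f₂ f₁ f₁ f₁ = 0 := by
  have G₁ : ∀ x, 0 ≤ g₁ x ∧ g₁ x ≤ 1 := fun x => ⟨(h₁ x).1.trans (h₁ x).2.1, (h₁ x).2.2⟩
  have G₂ : ∀ x, 0 ≤ g₂ x ∧ g₂ x ≤ 1 := fun x => ⟨(h₂ x).1.trans (h₂ x).2.1, (h₂ x).2.2⟩
  have G₃ : ∀ x, 0 ≤ g₃ x ∧ g₃ x ≤ 1 := fun x => ⟨(h₃ x).1.trans (h₃ x).2.1, (h₃ x).2.2⟩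
  have F₁ : ∀ x, 0 ≤ f₁ x ∧ f₁ x ≤ 1 := fun x => ⟨(h₁ x).1, (h₁ x).2.1.trans (h₁ x).2.2⟩
  have F₂ : ∀ x, 0 ≤ f₂ x ∧ f₂ x ≤ 1 := fun x => ⟨(h₂ x).1, (h₂ x).2.1.trans (h₂ x).2.2⟩
  have F₃ : ∀ x, 0 ≤ f₃ x ∧ f₃ x ≤ 1 := fun x => ⟨(h₃ x).1, (h₃ x).2.1.trans (h₃ x).2.2⟩
  -- products of three numbers in `[0, 1]`
  have P3 : ∀ {a b c : ℝ}, (0 ≤ a ∧ a ≤ 1) → (0 ≤ b ∧ b ≤ 1) → (0 ≤ c ∧ c ≤ 1) →
      0 ≤ a * b * c ∧ a * b * c ≤ 1 := fun ha hb hc =>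
    ⟨mul_nonneg (mul_nonneg ha.1 hb.1) hc.1,
      mul_le_one₀ (mul_le_one₀ ha.2 hb.1 hb.2) hc.1 hc.2⟩
  have P2 : ∀ {a b : ℝ}, (0 ≤ a ∧ a ≤ 1) → (0 ≤ b ∧ b ≤ 1) → 0 ≤ a * b ∧ a * b ≤ 1 :=
    fun ha hb => ⟨mul_nonneg ha.1 hb.1, mul_le_one₀ ha.2 hb.1 hb.2⟩
  -- innermost
  have I_f : ∀ u v : ℤ, 0 ≤ m.L (fun x => f₁ x * f₁ (x - (0 + ((1 : ℕ) : ℤ) * u)) *
      f₁ (x - ((1 : ℕ) : ℤ) * (0 + ((1 : ℕ) : ℤ) * v))) ∧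
      m.L (fun x => f₁ x * f₁ (x - (0 + ((1 : ℕ) : ℤ) * u)) *
        f₁ (x - ((1 : ℕ) : ℤ) * (0 + ((1 : ℕ) : ℤ) * v))) ≤ 1 := fun u v =>
    tr_rng_L m _ 1 fun x => P3 (F₁ _) (F₁ _) (F₁ _)
  have I_g : ∀ u v : ℤ, 0 ≤ m.L (fun x => g₁ x * g₁ (x - (0 + ((1 : ℕ) : ℤ) * u)) *
      g₁ (x - ((1 : ℕ) : ℤ) * (0 + ((1 : ℕ) : ℤ) * v))) ∧
      m.L (fun x => g₁ x * g₁ (x - (0 + ((1 : ℕ) : ℤ) * u)) *
        g₁ (x - ((1 : ℕ) : ℤ) * (0 + ((1 : ℕ) : ℤ) * v))) ≤ 1 := fun u v =>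
    tr_rng_L m _ 1 fun x => P3 (G₁ _) (G₁ _) (G₁ _)
  have I_le : ∀ u v : ℤ, m.L (fun x => f₁ x * f₁ (x - (0 + ((1 : ℕ) : ℤ) * u)) *
      f₁ (x - ((1 : ℕ) : ℤ) * (0 + ((1 : ℕ) : ℤ) * v))) ≤
      m.L (fun x => g₁ x * g₁ (x - (0 + ((1 : ℕ) : ℤ) * u)) *
        g₁ (x - ((1 : ℕ) : ℤ) * (0 + ((1 : ℕ) : ℤ) * v))) := fun u v =>
    L_mono m (Bd.of_mem_Icc (a := 0) (b := 1) fun x => P3 (F₁ _) (F₁ _) (F₁ _))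
      (Bd.of_mem_Icc (a := 0) (b := 1) fun x => P3 (G₁ _) (G₁ _) (G₁ _)) fun x =>
        tr_mul3 (F₁ _).1 (F₁ _).1 (F₁ _).1 (h₁ _).2.1 (h₁ _).2.1 (h₁ _).2.1
  -- the middle
  have J_f : ∀ v : ℤ, 0 ≤ m.L (fun u => f₂ u * f₂ (u - (0 + ((1 : ℕ) : ℤ) * v)) *
      m.L (fun x => f₁ x * f₁ (x - (0 + ((1 : ℕ) : ℤ) * u)) *
        f₁ (x - ((1 : ℕ) : ℤ) * (0 + ((1 : ℕ) : ℤ) * v)))) ∧
      m.L (fun u => f₂ u * f₂ (u - (0 + ((1 : ℕ) : ℤ) * v)) *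
      m.L (fun x => f₁ x * f₁ (x - (0 + ((1 : ℕ) : ℤ) * u)) *
        f₁ (x - ((1 : ℕ) : ℤ) * (0 + ((1 : ℕ) : ℤ) * v)))) ≤ 1 := fun v =>
    tr_rng_L m _ 1 fun u => P3 (F₂ _) (F₂ _) (I_f u v)
  have J_g : ∀ v : ℤ, 0 ≤ m.L (fun u => g₂ u * g₂ (u - (0 + ((1 : ℕ) : ℤ) * v)) *
      m.L (fun x => g₁ x * g₁ (x - (0 + ((1 : ℕ) : ℤ) * u)) *
        g₁ (x - ((1 : ℕ) : ℤ) * (0 + ((1 : ℕ) : ℤ) * v)))) ∧
      m.L (fun u => g₂ u * g₂ (u - (0 + ((1 : ℕ) : ℤ) * v)) *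
      m.L (fun x => g₁ x * g₁ (x - (0 + ((1 : ℕ) : ℤ) * u)) *
        g₁ (x - ((1 : ℕ) : ℤ) * (0 + ((1 : ℕ) : ℤ) * v)))) ≤ 1 := fun v =>
    tr_rng_L m _ 1 fun u => P3 (G₂ _) (G₂ _) (I_g u v)
  have J_le : ∀ v : ℤ, m.L (fun u => f₂ u * f₂ (u - (0 + ((1 : ℕ) : ℤ) * v)) *
      m.L (fun x => f₁ x * f₁ (x - (0 + ((1 : ℕ) : ℤ) * u)) *
        f₁ (x - ((1 : ℕ) : ℤ) * (0 + ((1 : ℕ) : ℤ) * v)))) ≤
      m.L (fun u => g₂ u * g₂ (u - (0 + ((1 : ℕ) : ℤ) * v)) *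
      m.L (fun x => g₁ x * g₁ (x - (0 + ((1 : ℕ) : ℤ) * u)) *
        g₁ (x - ((1 : ℕ) : ℤ) * (0 + ((1 : ℕ) : ℤ) * v)))) := fun v =>
    L_mono m (Bd.of_mem_Icc (a := 0) (b := 1) fun u => P3 (F₂ _) (F₂ _) (I_f u v))
      (Bd.of_mem_Icc (a := 0) (b := 1) fun u => P3 (G₂ _) (G₂ _) (I_g u v)) fun u =>
        tr_mul3 (F₂ _).1 (F₂ _).1 (I_f u v).1 (h₂ _).2.1 (h₂ _).2.1 (I_le u v)
  unfold T3 at h ⊢
  refine le_antisymm ?_ (m.nonneg _ (Bd.of_mem_Icc (a := 0) (b := 1) fun v => P2 (F₃ _) (J_f v))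
    fun v => (P2 (F₃ _) (J_f v)).1)
  rw [← h]
  exact L_mono m (Bd.of_mem_Icc (a := 0) (b := 1) fun v => P2 (F₃ _) (J_f v))
    (Bd.of_mem_Icc (a := 0) (b := 1) fun v => P2 (G₃ _) (J_g v)) fun v =>
      mul_le_mul (h₃ v).2.1 (J_le v) (J_f v).1 (G₃ v).1

/-- the reflected mean -/
noncomputable def refl (m : Mn ℤ) : Mn ℤ where
  L :=
    { toFun := fun f => m.L (fun x => f (-x))
      map_add' := fun f g => by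
        have : (fun x => (f + g) (-x)) = (fun x => f (-x)) + fun x => g (-x) := by
          ext x
          rfl
        rw [this, map_add]
      map_smul' := fun c f => by
        have : (fun x => (c • f) (-x)) = c • fun x => f (-x) := by
          ext x
          rfl
        rw [this, map_smul]
        rfl }
  one := m.one
  nonneg := fun f hf h0 => m.nonneg _ (hf.comp _) fun x => h0 _

theorem refl_L (m : Mn ℤ) (f : ℤ → ℝ) : (refl m).L f = m.L (fun x => f (-x)) := rfl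

theorem refl_inv (m : Mn ℤ) (hm : m.Inv) : (refl m).Inv := by
  intro f hf
  rw [refl_L, refl_L]
  have h1 := L_shift m hm (f := fun x => f (-x)) (hf.comp _) (-1)
  rw [← h1]
  congr 1
  ext x
  congr 1
  ring

theorem half_of_T (f : ℤ → ℝ) (_hf : ∀ x, 0 ≤ f x ∧ f x ≤ 1) (hev : ∀ n, f (-n) = f n)
    (hT : ∀ m : Mn ℤ, m.Inv → den m f 3 0 + 2 * den m f 3 1 ≤ 3 / 2) :
    ∀ m : Mn ℤ, m.Inv → m.L f ≤ 1 / 2 := by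
  classical
  intro m hm
  have h1 := hT m hm
  have h2 := hT (refl m) (refl_inv m hm)
  have e : ∀ r : ℤ, den (refl m) f 3 r = den m f 3 (-r) := by
    intro r
    unfold den
    rw [refl_L]
    congr 2
    funext x
    have h3 : -x ∈ cls 3 r ↔ x ∈ cls 3 (-r) := by
      rw [mem_cls, mem_cls]
      have e1 : -x - r = -(x - -r) := by ring
      rw [e1, dvd_neg]
    by_cases hx : -x ∈ cls 3 r
    · rw [Set.indicator_of_mem hx, Set.indicator_of_mem (h3.1 hx), hev]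
    · rw [Set.indicator_of_notMem hx, Set.indicator_of_notMem (fun h => hx (h3.2 h))]
  rw [e, e, neg_zero] at h2
  have h3 := den_split m 1 3 one_pos (by norm_num) 0 f
  have h4 : den m f 1 0 = m.L f := by
    unfold den
    have h5 : (cls 1 0).indicator f = f := by
      funext x
      rw [Set.indicator_of_mem]
      rw [mem_cls]
      push_cast
      exact one_dvd _
    rw [h5]
    push_cast
    ring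
  rw [h4] at h3
  simp only [Finset.sum_range_succ, Finset.sum_range_zero, one_mul, zero_add, Nat.cast_one,
    Nat.cast_zero, Nat.cast_ofNat] at h3
  have h6 : den m f 3 2 = den m f 3 (-1) := by
    unfold den
    rw [cls_eq (W := 3) (r := 2) (s := -1)]
    norm_num
  rw [h6] at h3
  linarith

end Pool.Agent.HOM
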